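import Pool.Agent.H9.FC.TB

/-!
# Forcing notions: bounded names for uncountable cofinality
-/

namespace Pool.Agent.H43.FC.BND

open Set Pool.Agent.H9.FC

/-- the value at the first place where `P` holds -/
noncomputable def pick {Y : Type} (y₀ : Y) (c : ℕ → Y) (P : ℕ → Prop) : Y :=
  open Classical in if h : ∃ j, P j then c (Nat.find h) else y₀

lemma pick_eq {Y : Type} {y₀ : Y} {c : ℕ → Y} {P : ℕ → Prop} {j : ℕ} (hj : P j)
    (hj' : ∀ j' < j, ¬ P j') : pick y₀ c P = c j := by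
  classical
  unfold pick
  have h : ∃ j, P j := ⟨j, hj⟩
  rw [dif_pos h]
  congr 1
  rw [Nat.find_eq_iff]
  exact ⟨hj, hj'⟩

lemma pick_or {Y : Type} (y₀ : Y) (c : ℕ → Y) (P : ℕ → Prop) :
    pick y₀ c P = y₀ ∨ ∃ j, P j ∧ pick y₀ c P = c j := by
  classical
  unfold pick
  by_cases h : ∃ j, P j
  · rw [dif_pos h]
    exact Or.inr ⟨_, Nat.find_spec h, rfl⟩
  · rw [dif_neg h]
    exact Or.inl rfl

/-- maximal antichains inside a dense hereditary set -/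
lemma exists_antichain {X : Type} (Q 𝒟 : Set (Set X)) (h𝒟 : 𝒟 ⊆ Q)
    (comp : Set X → Set X → Prop)
    (hcomp : ∀ U V, comp U V ↔ ∃ R ∈ Q, R ⊆ U ∧ R ⊆ V)
    (hdense : ∀ U ∈ Q, ∃ V ∈ 𝒟, V ⊆ U) :
    ∃ A ⊆ 𝒟, (∀ U ∈ A, ∀ V ∈ A, U ≠ V → ¬ comp U V) ∧ ∀ U ∈ Q, ∃ V ∈ A, comp U V := by
  obtain ⟨A, hA⟩ := zorn_subset {A : Set (Set X) | A ⊆ 𝒟 ∧ ∀ U ∈ A, ∀ V ∈ A, U ≠ V → ¬ comp U V}
    (by
      intro c hc hchain
      refine ⟨⋃₀ c, ⟨?_, ?_⟩, fun s hs => subset_sUnion_of_mem hs⟩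
      · exact sUnion_subset fun s hs => (hc hs).1
      · rintro U ⟨s, hs, hUs⟩ V ⟨t, ht, hVt⟩ hne
        rcases hchain.total hs ht with h | h
        · exact (hc ht).2 U (h hUs) V hVt hne
        · exact (hc hs).2 U hUs V (h hVt) hne)
  refine ⟨A, hA.prop.1, hA.prop.2, fun U hU => ?_⟩
  obtain ⟨V, hV, hVU⟩ := hdense U hU
  by_contra hcon
  push Not at hcon
  have hVA : ∀ W ∈ A, ¬ comp V W := by
    intro W hW h
    obtain ⟨R, hR, hRV, hRW⟩ := (hcomp V W).1 h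
    exact hcon W hW ((hcomp U W).2 ⟨R, hR, hRV.trans hVU, hRW⟩)
  have hsymm : ∀ U V, comp U V → comp V U := by
    intro U V h
    obtain ⟨R, hR, h1, h2⟩ := (hcomp U V).1 h
    exact (hcomp V U).2 ⟨R, hR, h2, h1⟩
  have hmem : insert V A ∈ {A : Set (Set X) | A ⊆ 𝒟 ∧ ∀ U ∈ A, ∀ V ∈ A, U ≠ V → ¬ comp U V} := by
    refine ⟨insert_subset hV hA.prop.1, ?_⟩
    rintro U1 (rfl | hU1) V1 (rfl | hV1) hne
    · exact absurd rfl hne
    · exact hVA V1 hV1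
    · exact fun h => hVA U1 hU1 (hsymm _ _ h)
    · exact hA.prop.2 U1 hU1 V1 hV1 hne
  have hVin : V ∈ A := hA.le_of_ge hmem (subset_insert V A) (mem_insert V A)
  exact hVA V hVin ((hcomp V V).2 ⟨V, h𝒟 hV, subset_rfl, subset_rfl⟩)

theorem pf_BND (hB : T_BAS) (hI : T_DIC) (hC : T_CCC) : T_BND := by
  classical
  intro p Ω _ _ γ hcof Y y₀ D her dense
  obtain ⟨hmono, hdep, hsat, hne, hsa⟩ := hB p Ω
  have huniv : ∀ δ, (univ : Set (Pt Ω)) ∈ PP p δ := fun δ => (mem_PP p δ univ).2 (Or.inl rfl)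
  -- maximal antichains
  have hA : ∀ n, ∃ A ⊆ {V | V ∈ PP p γ ∧ ∃ c, D n c V},
      (∀ U ∈ A, ∀ V ∈ A, U ≠ V → ¬ Comp (PP p γ) U V) ∧
      ∀ U ∈ PP p γ, ∃ V ∈ A, Comp (PP p γ) U V := fun n =>
    exists_antichain (PP p γ) _ (fun V hV => hV.1) (Comp (PP p γ)) (fun U V => Iff.rfl)
      (fun U hU => by
        obtain ⟨V', hV', hVU, c, hc⟩ := dense n U hU
        exact ⟨V', ⟨hV', c, hc⟩, hVU⟩)
  choose A hAD hAanti hApre using hA
  have hAc : ∀ n, (A n).Countable := fun n =>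
    hC p Ω γ (A n) (fun V hV => (hAD n hV).1) (hAanti n)
  have hAne : ∀ n, (A n).Nonempty := fun n => by
    obtain ⟨V, hV, _⟩ := hApre n univ (huniv γ)
    exact ⟨V, hV⟩
  -- bounded coordinates
  have hS : ∀ V : Set (Pt Ω), ∃ S : Set Ω, S.Countable ∧ (V ∈ PP p γ → (∀ δ ∈ S, δ < γ) ∧
      ∀ β, (∀ δ ∈ S, δ < β) → V ∈ PP p β) := by
    intro V
    by_cases hV : V ∈ PP p γ
    · rcases (mem_PP p γ V).1 hV with rfl | ⟨δ, hδ, U, hU, s, l, φ, h1, h2, h3, rfl⟩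
      · exact ⟨∅, countable_empty, fun _ => ⟨fun δ hδ => absurd hδ (notMem_empty δ),
          fun β _ => huniv β⟩⟩
      · refine ⟨{δ}, countable_singleton δ, fun _ => ⟨?_, ?_⟩⟩
        · rintro δ' rfl
          exact hδ
        · intro β hβ
          exact (mem_PP p β _).2 (Or.inr ⟨δ, hβ δ rfl, U, hU, s, l, φ, h1, h2, h3, rfl⟩)
    · exact ⟨∅, countable_empty, fun h => absurd h hV⟩
  choose S hSc hSp using hS
  obtain ⟨β, hβγ, hβ⟩ := hcof (⋃ n, ⋃ V ∈ A n, S V)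
    (countable_iUnion fun n => (hAc n).biUnion fun V _ => hSc V) (by
      intro δ hδ
      simp only [mem_iUnion] at hδ
      obtain ⟨n, V, hV, hδ⟩ := hδ
      exact (hSp V (hAD n hV).1).1 δ hδ)
  have hAβ : ∀ n, ∀ V ∈ A n, V ∈ PP p β := by
    intro n V hV
    refine (hSp V (hAD n hV).1).2 β fun δ hδ => hβ δ ?_
    simp only [mem_iUnion]
    exact ⟨n, V, hV, hδ⟩
  -- enumerations
  have hv : ∀ n, ∃ v : ℕ → Set (Pt Ω), A n = range v := fun n =>
    (hAc n).exists_eq_range (hAne n)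
  choose v hv using hv
  have hvA : ∀ n j, v n j ∈ A n := fun n j => by rw [hv n]; exact mem_range_self j
  have hc : ∀ n j, ∃ c, D n c (v n j) := fun n j => (hAD n (hvA n j)).2
  choose c hc using hc
  -- the minimal index
  have hmin : ∀ n, ∀ V ∈ A n, ∃ j, v n j = V ∧ ∀ j' < j, v n j' ≠ V := by
    intro n V hV
    have h : ∃ j, v n j = V := by
      rw [hv n] at hV
      exact hV
    exact ⟨Nat.find h, Nat.find_spec h, fun j' hj' => Nat.find_min h hj'⟩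
  -- shrinking
  have hshrink : ∀ γ', γ' ≤ γ → (∀ n, ∀ V ∈ A n, V ∈ PP p γ') → ∀ n j,
      (∀ j' < j, v n j' ≠ v n j) → ∀ R ∈ PP p γ', R ⊆ v n j →
      ∃ V ∈ PP p γ', V ⊆ R ∧ ∀ x ∈ V, pick y₀ (c n) (fun j => x ∈ v n j) = c n j := by
    intro γ' hγ' hA' n j hj R hR hRv
    have h1 : ∀ m ≤ j, ∃ V ∈ PP p γ', V ⊆ R ∧ ∀ j' < m, Disjoint V (v n j') := by
      intro m
      induction m with
      | zero => exact fun _ => ⟨R, hR, subset_rfl, fun j' hj' => absurd hj' (by omega)⟩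
      | succ m ih =>
        intro hm
        obtain ⟨V, hV, hVR, hVd⟩ := ih (by omega)
        obtain ⟨V', hV', hV'V, h | h⟩ := hI p Ω γ' V (v n m) hV (hA' n _ (hvA n m))
        · exfalso
          refine hAanti n (v n m) (hvA n m) (v n j) (hvA n j) (hj m (by omega))
            ⟨V', hmono γ' γ hγ' hV', h, (hV'V.trans hVR).trans hRv⟩
        · refine ⟨V', hV', hV'V.trans hVR, fun j' hj' => ?_⟩
          rcases Nat.lt_succ_iff_lt_or_eq.1 hj' with h3 | rfl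
          · exact (hVd j' h3).mono_left hV'V
          · exact h
    obtain ⟨V, hV, hVR, hVd⟩ := h1 j le_rfl
    refine ⟨V, hV, hVR, fun x hx => pick_eq (hRv (hVR hx)) fun j' hj' hx' => ?_⟩
    exact Set.disjoint_left.1 (hVd j' hj') hx hx'
  refine ⟨β, hβγ, fun x n => pick y₀ (c n) (fun j => x ∈ v n j), ?_, ?_, ?_, ?_⟩
  · intro x x' hxx
    funext n
    have : (fun j => x ∈ v n j) = fun j => x' ∈ v n j := by
      funext j
      refine propext ⟨fun h => ?_, fun h => ?_⟩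
      · exact hdep β _ (hAβ n _ (hvA n j)) x x' h hxx
      · exact hdep β _ (hAβ n _ (hvA n j)) x' x h fun δ hδ => (hxx δ hδ).symm
    show pick y₀ (c n) (fun j => x ∈ v n j) = pick y₀ (c n) (fun j => x' ∈ v n j)
    rw [this]
  · intro n U hU
    obtain ⟨V, hV, R, hR, hRU, hRV⟩ := hApre n U (hmono β γ hβγ.le hU)
    obtain ⟨j, rfl, hj⟩ := hmin n V hV
    have hR0 : sat β R ∈ PP p β := hsat β γ R hR
    have hR0U : sat β R ⊆ U := by
      rintro x ⟨x', hx', hxx⟩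
      exact hdep β U hU x' x (hRU hx') fun δ hδ => (hxx δ hδ).symm
    have hR0v : sat β R ⊆ v n j := by
      rintro x ⟨x', hx', hxx⟩
      exact hdep β _ (hAβ n _ (hvA n j)) x' x (hRV hx') fun δ hδ => (hxx δ hδ).symm
    obtain ⟨V', hV', hV'R, hV'c⟩ := hshrink β hβγ.le hAβ n j hj _ hR0 hR0v
    exact ⟨V', hV', hV'R.trans hR0U, c n j, hV'c⟩
  · intro x n
    rcases pick_or y₀ (c n) (fun j => x ∈ v n j) with h | ⟨j, _, h⟩
    · exact Or.inl h
    · refine Or.inr ⟨v n j, (hAD n (hvA n j)).1, ?_⟩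
      show D n (pick y₀ (c n) (fun j => x ∈ v n j)) (v n j)
      rw [h]
      exact hc n j
  · intro n c' V hV hVc
    obtain ⟨W, hW, R, hR, hRV, hRW⟩ := hApre n V hV
    obtain ⟨j, rfl, hj⟩ := hmin n W hW
    obtain ⟨V', hV', hV'R, hV'c⟩ := hshrink γ le_rfl (fun n V hV => (hAD n hV).1) n j hj R hR hRW
    obtain ⟨x, hx⟩ := hne γ V' hV'
    have h1 : c n j = c' := by
      rw [← hV'c x hx]
      exact hVc x (hRV (hV'R hx))
    refine ⟨V', hV', hV'R.trans hRV, ?_⟩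
    rw [← h1]
    exact her n _ (v n j) V' hV' (hV'R.trans hRW) (hc n j)

end Pool.Agent.H43.FC.BND
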