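import Pool.Agent.H9.FC.TB

/-!
# Forcing notions: every condition is decided densely
-/

namespace Pool.Agent.H43.FC.DIC

open Set Pool.Agent.H9.FC

variable {Ω : Type} [LinearOrder Ω]

lemma w_mono (p : Par) (i : ℕ) {l l' : ℕ} (h : l ≤ l') : p.w l i ≤ p.w l' i := by
  have : Monotone (fun l => p.w l i) := monotone_nat_of_le_succ fun l => by
    have := p.w_succ l i
    omega
  exact this h

lemma name_union {p : Par} {Q : Set (Set (Pt Ω))} {γ : Ω} {l l' : ℕ}
    {φ φ' : Pt Ω → ℕ → Finset ℕ} (h : IsName p Q γ l φ) (h' : IsName p Q γ l' φ') :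
    IsName p Q γ (max l l' + 1) (fun x i => φ x i ∪ φ' x i) := by
  refine ⟨?_, ?_, ?_⟩
  · intro x i
    refine ⟨Finset.union_subset (h.1 x i).1 (h'.1 x i).1, ?_⟩
    have h1 := Finset.card_union_le (φ x i) (φ' x i)
    have h2 := (h.1 x i).2
    have h3 := (h'.1 x i).2
    have h4 := w_mono p i (le_max_left l l')
    have h5 := w_mono p i (le_max_right l l')
    have h6 := p.w_succ (max l l') i
    show (φ x i ∪ φ' x i).card ≤ _
    omega
  · intro x x' hx
    funext i
    show φ x i ∪ φ' x i = φ x' i ∪ φ' x' i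
    rw [h.2.1 x x' hx, h'.2.1 x x' hx]
  · intro i U hU
    obtain ⟨V, hV, hVU, c, hc⟩ := h.2.2 i U hU
    obtain ⟨V', hV', hV'V, c', hc'⟩ := h'.2.2 i V hV
    refine ⟨V', hV', hV'V.trans hVU, c ∪ c', fun x hx => ?_⟩
    simp only
    rw [← hc x (hV'V hx), ← hc' x hx]

theorem pf_DIC (hB : T_BAS) (hD : T_DCF) (hE : T_EXT) : T_DIC := by
  intro p Ω _ _ γ₀ U₀ W₀ hU₀ hW₀
  obtain ⟨hmono, hdep, hsat, hne, hsa⟩ := hB p Ω
  have key : ∀ δ : Ω, ∀ W ∈ PP p δ, ∀ γ, δ ≤ γ → ∀ U ∈ PP p γ,
      ∃ V ∈ PP p γ, V ⊆ U ∧ (V ⊆ W ∨ Disjoint V W) := by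
    intro δ
    induction δ using WellFoundedLT.induction with
    | ind δ IH =>
      intro W hW γ hδγ U hU
      rcases (mem_PP p δ W).1 hW with rfl | ⟨ε, hε, W0, hW0, s, l, φ, hs, hl, hφ, rfl⟩
      · exact ⟨U, hU, subset_rfl, Or.inl (subset_univ _)⟩
      · obtain ⟨U1, hU1, hU1U, h1 | h1⟩ := IH ε hε W0 hW0 γ (hε.le.trans hδγ) U hU
        · obtain ⟨V1, hV1, s', l', φ', hs', hl', hN, hφ', hVs, hlast⟩ :=
            hE p Ω ε γ (max s.length (l + 3)) U1 (lt_of_lt_of_le hε hδγ) hU1
          have hN1 : s.length ≤ s'.length := (le_max_left _ _).trans hN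
          have hN2 : l + 3 ≤ s'.length := (le_max_right _ _).trans hN
          obtain ⟨V2, hV2, hV21, hV2c⟩ := hD p Ω ε (Finset ℕ) φ s'.length V1 hφ.2.2 hV1
          obtain ⟨x0, hx0⟩ := hne ε V2 hV2
          have hc : ∀ i < s'.length, ∀ x ∈ V2, φ x i = φ x0 i := by
            intro i hi x hx
            obtain ⟨c, hc⟩ := hV2c i hi
            rw [hc x hx, hc x0 hx0]
          have hU3 : (V2 ∩ atom ε s' φ') ∩ U1 ∈ PP p γ :=
            hlast V2 hV2 s' l' φ' hs' (by omega) hφ' (inter_subset_inter_left _ hV21)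
          by_cases hA : ∃ i < s.length, s'.getD i ∅ ≠ s.getD i ∅
          · obtain ⟨i, hi, hne'⟩ := hA
            refine ⟨_, hU3, inter_subset_right.trans hU1U, Or.inr ?_⟩
            rw [Set.disjoint_left]
            rintro x ⟨⟨_, hx2, _⟩, _⟩ ⟨_, hx3, _⟩
            exact hne' ((hx2 i (by omega)).symm.trans (hx3 i hi))
          · push Not at hA
            by_cases hBc : ∃ i, s.length ≤ i ∧ i < s'.length ∧ ¬ φ x0 i ⊆ s'.getD i ∅
            · obtain ⟨i, hi1, hi2, hnot⟩ := hBc
              refine ⟨_, hU3, inter_subset_right.trans hU1U, Or.inr ?_⟩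
              rw [Set.disjoint_left]
              rintro x ⟨⟨hx1, hx2, _⟩, _⟩ ⟨_, _, hx4⟩
              apply hnot
              rw [← hc i hi2 x hx1, ← hx2 i hi2]
              exact hx4 i hi1
            · push Not at hBc
              have hname := name_union hφ hφ'
              have hsub : V2 ∩ atom ε s' (fun x i => φ x i ∪ φ' x i) ⊆ V1 ∩ atom ε s' φ' := by
                rintro x ⟨hx1, hx2, hx3⟩
                exact ⟨hV21 hx1, hx2, fun i hi => Finset.union_subset_right (hx3 i hi)⟩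
              have hU4 := hlast V2 hV2 s' (max l l' + 1) _ hs' (by omega) hname hsub
              refine ⟨_, hU4, inter_subset_right.trans hU1U, Or.inl ?_⟩
              rintro x ⟨⟨hx1, hx2, hx3⟩, hx4⟩
              refine ⟨h1 hx4, ?_, ?_⟩
              · intro i hi
                rw [hx2 i (by omega), hA i hi]
              · intro i hi
                by_cases h : i < s'.length
                · rw [hc i h x hx1, hx2 i h]
                  exact hBc i hi h
                · exact Finset.union_subset_left (hx3 i (by omega))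
        · exact ⟨U1, hU1, hU1U, Or.inr (h1.mono_right inter_subset_left)⟩
  exact key γ₀ W₀ hW₀ γ₀ le_rfl U₀ hU₀

end Pool.Agent.H43.FC.DIC
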