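import Pool.Agent.H9.FC.TB

/-!
# Forcing notions: extension to a long stem
-/

namespace Pool.Agent.H43.FC.EXT

open Set Pool.Agent.H9.FC

variable {Ω : Type} [LinearOrder Ω] [WellFoundedLT Ω]

lemma univ_mem (p : Par) (γ : Ω) : (univ : Set (Pt Ω)) ∈ PP p γ := (mem_PP p γ univ).2 (Or.inl rfl)

lemma inter_mem {p : Par} {γ δ : Ω} (h : γ < δ) {V : Set (Pt Ω)} (hV : V ∈ PP p γ)
    {s : List (Finset ℕ)} {l : ℕ} {φ : Pt Ω → ℕ → Finset ℕ} (hs : StemOK p s)
    (hl : l + 2 ≤ s.length) (hφ : IsName p (PP p γ) γ l φ) : V ∩ atom γ s φ ∈ PP p δ :=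
  (mem_PP p δ _).2 (Or.inr ⟨γ, h, V, hV, s, l, φ, hs, hl, hφ, rfl⟩)

lemma getD_map_range (f : ℕ → Finset ℕ) (N i : ℕ) (hi : i < N) :
    ((List.range N).map f).getD i ∅ = f i := by
  rw [List.getD_eq_getElem _ _ (by simpa using hi)]
  simp

lemma stem_empty (p : Par) (N : ℕ) : StemOK p (List.replicate N (∅ : Finset ℕ)) := by
  intro i hi
  have h : (List.replicate N (∅ : Finset ℕ)).getD i ∅ = ∅ := by
    rw [List.getD_eq_getElem _ _ hi]
    simp
  rw [h]
  simp

omit [WellFoundedLT Ω] in
lemma name_empty (p : Par) (γ : Ω) (Q : Set (Set (Pt Ω))) :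
    IsName p Q γ 0 (fun _ _ => (∅ : Finset ℕ)) := by
  refine ⟨fun x i => by simp, fun x x' _ => rfl, fun i U hU => ⟨U, hU, subset_rfl, ∅, fun x _ => rfl⟩⟩

theorem pf_EXT (hB : T_BAS) (hD : T_DCF) : T_EXT := by
  intro p Ω _ _ γ δ N U
  induction δ using WellFoundedLT.induction generalizing U with
  | ind δ IH =>
    intro hγδ hU
    obtain ⟨hmono, hdep, hsat, hne, hsa⟩ := hB p Ω
    rcases (mem_PP p δ U).1 hU with rfl | ⟨ε, hε, U0, hU0, t, l0, ψ, ht, hl0, hψ, rfl⟩
    · refine ⟨univ, univ_mem p γ, List.replicate (N + 3) ∅, 0, fun _ _ => ∅, stem_empty p _,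
        by simp, by simp, name_empty p γ _, fun x _ => ⟨x, mem_univ x, fun _ _ => rfl⟩, ?_⟩
      intro V' hV' s' l' φ' hs' hl' hφ' _
      rw [inter_univ]
      exact inter_mem hγδ hV' hs' hl' hφ'
    · rcases lt_trichotomy ε γ with hεγ | hεγ | hεγ
      · refine ⟨U0 ∩ atom ε t ψ, inter_mem hεγ hU0 ht hl0 hψ, List.replicate (N + 3) ∅, 0,
          fun _ _ => ∅, stem_empty p _, by simp, by simp, name_empty p γ _,
          fun x hx => ⟨x, hx, fun _ _ => rfl⟩, ?_⟩
        intro V' hV' s' l' φ' hs' hl' hφ' hsub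
        rw [inter_eq_left.2 (hsub.trans inter_subset_left)]
        exact inter_mem hγδ hV' hs' hl' hφ'
      · subst hεγ
        obtain ⟨N', hN', hN'1, hN'2, hN'3⟩ : ∃ N', N' = max N (max (l0 + 3) t.length) ∧ N ≤ N' ∧
            l0 + 3 ≤ N' ∧ t.length ≤ N' :=
          ⟨_, rfl, le_max_left _ _, (le_max_left _ _).trans (le_max_right _ _),
            (le_max_right _ _).trans (le_max_right _ _)⟩
        obtain ⟨V, hV, hVU, hVc⟩ := hD p Ω ε (Finset ℕ) ψ N' U0 hψ.2.2 hU0
        obtain ⟨x0, hx0⟩ := hne ε V hV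
        have hc : ∀ i < N', ∀ x ∈ V, ψ x i = ψ x0 i := by
          intro i hi x hx
          obtain ⟨c, hc⟩ := hVc i hi
          rw [hc x hx, hc x0 hx0]
        obtain ⟨g, hg⟩ : ∃ g : ℕ → Finset ℕ, g = fun i => if i < t.length then t.getD i ∅ else ψ x0 i :=
          ⟨_, rfl⟩
        have hlen : ((List.range N').map g).length = N' := by simp
        have hg1 : ∀ i < t.length, ((List.range N').map g).getD i ∅ = t.getD i ∅ := by
          intro i hi
          rw [getD_map_range _ _ _ (by omega), hg]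
          simp only
          rw [if_pos hi]
        have hg2 : ∀ i, t.length ≤ i → i < N' → ((List.range N').map g).getD i ∅ = ψ x0 i := by
          intro i hi hi'
          rw [getD_map_range _ _ _ hi', hg]
          simp only
          rw [if_neg (by omega)]
        refine ⟨V, hV, (List.range N').map g, l0, ψ, ?_, by rw [hlen]; exact hN'2,
          by rw [hlen]; exact hN'1, hψ, ?_, ?_⟩
        · intro i hi
          rw [hlen] at hi
          by_cases h : i < t.length
          · rw [hg1 i h]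
            exact ht i h
          · rw [hg2 i (by omega) hi]
            have h1 := (hψ.1 x0 i)
            refine ⟨h1.1, ?_⟩
            have h2 := p.w_le l0 i (by omega)
            have h3 := h1.2
            omega
        · intro x hx
          rw [hsa ε ε U0 t ψ le_rfl hU0 hψ.2.1]
          exact ⟨x, hVU hx, fun _ _ => rfl⟩
        · intro V' hV' s' l' φ' hs' hl' hφ' hsub
          have hsub2 : V ∩ atom ε ((List.range N').map g) ψ ⊆ U0 ∩ atom ε t ψ := by
            rintro x ⟨hx1, hx2, hx3⟩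
            rw [hlen] at hx2 hx3
            refine ⟨hVU hx1, ?_, ?_⟩
            · intro i hi
              rw [hx2 i (by omega), hg1 i hi]
            · intro i hi
              by_cases h : i < N'
              · rw [hx2 i h, hg2 i hi h, hc i h x hx1]
              · exact hx3 i (by omega)
          rw [inter_eq_left.2 (hsub.trans hsub2)]
          exact inter_mem hγδ hV' hs' hl' hφ'
      · obtain ⟨V, hV, s, l, φ, hs, hl, hN, hφ, hVs, hE⟩ := IH ε hε U0 hεγ hU0
        refine ⟨V, hV, s, l, φ, hs, hl, hN, hφ, ?_, ?_⟩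
        · rw [hsa γ ε U0 t ψ hεγ.le hU0 hψ.2.1]
          exact hVs
        · intro V' hV' s' l' φ' hs' hl' hφ' hsub
          have h1 := hE V' hV' s' l' φ' hs' hl' hφ' hsub
          rw [← inter_assoc]
          exact inter_mem hε h1 ht hl0 hψ

end Pool.Agent.H43.FC.EXT
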